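import Mathlib

/-!
# Semi-universally flexible loops with the inverse property (MP_e88537_al): definitions
-/

set_option autoImplicit false

namespace Pool.Agent.helper48.SUF

/-- A loop: a set with a product and a two-sided identity `1` such that all left translations
`x ↦ a * x` and all right translations `x ↦ x * a` are bijections. -/
class Loop (Q : Type*) extends Mul Q, One Q where
  one_mul' : ∀ x : Q, 1 * x = x
  mul_one' : ∀ x : Q, x * 1 = x
  bij_left : ∀ a : Q, Function.Bijective fun x : Q => a * x
  bij_right : ∀ a : Q, Function.Bijective fun x : Q => x * a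

/-- `ld x y = x \ y`, the solution `u` of `x * u = y`. -/
noncomputable def ld {Q : Type*} [Loop Q] (x y : Q) : Q :=
  (Equiv.ofBijective (fun u : Q => x * u) (Loop.bij_left x)).symm y

/-- `rd x y = x / y`, the solution `u` of `u * y = x`. -/
noncomputable def rd {Q : Type*} [Loop Q] (x y : Q) : Q :=
  (Equiv.ofBijective (fun u : Q => u * y) (Loop.bij_right y)).symm x

/-- The product of the (principal) isotope `Q_{a,b}`: `x ∘ y = (x / a) * (b \ y)`. -/
noncomputable def iso {Q : Type*} [Loop Q] (a b x y : Q) : Q := rd x a * ld b y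

/-- A product is flexible: `x (y x) = (x y) x`. -/
def Flexible {Q : Type*} (op : Q → Q → Q) : Prop := ∀ x y : Q, op x (op y x) = op (op x y) x

/-- Semi-universally flexible: all left isotopes `Q_{a,1}` and all right isotopes `Q_{1,b}` are
flexible. -/
def SemiUniversallyFlexible (Q : Type*) [Loop Q] : Prop :=
  (∀ a : Q, Flexible (iso a 1)) ∧ ∀ b : Q, Flexible (iso 1 b)

/-- The inverse property: `1 / x = x \ 1` (this is `x⁻¹`), `x \ y = x⁻¹ y` and `y / x = y x⁻¹`. -/
def InverseProperty (Q : Type*) [Loop Q] : Prop :=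
  ∀ x : Q, rd 1 x = ld x 1 ∧ ∀ y : Q, ld x y = ld x 1 * y ∧ rd y x = y * ld x 1

/-- The Moufang law. -/
def Moufang (Q : Type*) [Loop Q] : Prop :=
  ∀ x y z : Q, (x * (y * z)) * x = (x * y) * (z * x)

/-- The elements of the centre: they commute and associate with all elements. -/
def Central {Q : Type*} [Loop Q] (n : Q) : Prop :=
  (∀ x : Q, n * x = x * n) ∧ (∀ x y : Q, (n * x) * y = n * (x * y)) ∧
    (∀ x y : Q, (x * n) * y = x * (n * y)) ∧ ∀ x y : Q, (x * y) * n = x * (y * n)

end Pool.Agent.helper48.SUF
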