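import Mathlib

/-!
# Alternating 3-cocycles on a group with the move of semi-universal flexibility (MP_e88537_al)

`A g0 g1 g2 g3` is a left invariant alternating 3-cocycle (homogeneous form) on a group `G`. The
move `mv` is the law of the right isotopes. The result is the Moufang move `T_move`.
-/

set_option autoImplicit false

namespace Pool.Agent.helper48.SUF

/-- The properties of the associator of an IP loop with flexible right isotopes whose associators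
are central (homogeneous form, over the group of classes). -/
structure Asc {G Z : Type*} [Group G] [AddCommGroup Z] (A : G → G → G → G → Z) : Prop where
  left : ∀ h a b c d, A (h * a) (h * b) (h * c) (h * d) = A a b c d
  s01 : ∀ a b c d, A b a c d = -A a b c d
  s12 : ∀ a b c d, A a c b d = -A a b c d
  s23 : ∀ a b c d, A a b d c = -A a b c d
  coc : ∀ a b c d e, A b c d e - A a c d e + A a b d e - A a b c e + A a b c d = 0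
  flex : ∀ x v, A 1 x v (v * x) = 0
  mv : ∀ a b c d, A (b * c⁻¹ * d * b⁻¹ * a) b c d = A a b c d

section

variable {G Z : Type*} [Group G] [AddCommGroup Z] {A : G → G → G → G → Z}

theorem tr (h : Asc A) (u g0 g1 g2 g3 x0 x1 x2 x3 : G) (h0 : u * g0 = x0) (h1 : u * g1 = x1)
    (h2 : u * g2 = x2) (h3 : u * g3 = x3) : A g0 g1 g2 g3 = A x0 x1 x2 x3 := by
  rw [← h0, ← h1, ← h2, ← h3, h.left]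

theorem p_0123 (h : Asc A) (g0 g1 g2 g3 : G) : A g0 g1 g2 g3 = A g0 g1 g2 g3 := by
  rfl

theorem p_0132 (h : Asc A) (g0 g1 g2 g3 : G) : A g0 g1 g3 g2 = -A g0 g1 g2 g3 := by
  rw [h.s23 g0 g1 g2 g3]

theorem p_0213 (h : Asc A) (g0 g1 g2 g3 : G) : A g0 g2 g1 g3 = -A g0 g1 g2 g3 := by
  rw [h.s12 g0 g1 g2 g3]

theorem p_0231 (h : Asc A) (g0 g1 g2 g3 : G) : A g0 g2 g3 g1 = A g0 g1 g2 g3 := by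
  rw [h.s23 g0 g2 g1 g3, h.s12 g0 g1 g2 g3]
  simp only [neg_neg]

theorem p_0312 (h : Asc A) (g0 g1 g2 g3 : G) : A g0 g3 g1 g2 = A g0 g1 g2 g3 := by
  rw [h.s12 g0 g1 g3 g2, h.s23 g0 g1 g2 g3]
  simp only [neg_neg]

theorem p_0321 (h : Asc A) (g0 g1 g2 g3 : G) : A g0 g3 g2 g1 = -A g0 g1 g2 g3 := by
  rw [h.s12 g0 g2 g3 g1, h.s23 g0 g2 g1 g3, h.s12 g0 g1 g2 g3]
  simp only [neg_neg]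

theorem p_1023 (h : Asc A) (g0 g1 g2 g3 : G) : A g1 g0 g2 g3 = -A g0 g1 g2 g3 := by
  rw [h.s01 g0 g1 g2 g3]

theorem p_1032 (h : Asc A) (g0 g1 g2 g3 : G) : A g1 g0 g3 g2 = A g0 g1 g2 g3 := by
  rw [h.s23 g1 g0 g2 g3, h.s01 g0 g1 g2 g3]
  simp only [neg_neg]

theorem p_1203 (h : Asc A) (g0 g1 g2 g3 : G) : A g1 g2 g0 g3 = A g0 g1 g2 g3 := by
  rw [h.s12 g1 g0 g2 g3, h.s01 g0 g1 g2 g3]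
  simp only [neg_neg]

theorem p_1230 (h : Asc A) (g0 g1 g2 g3 : G) : A g1 g2 g3 g0 = -A g0 g1 g2 g3 := by
  rw [h.s23 g1 g2 g0 g3, h.s12 g1 g0 g2 g3, h.s01 g0 g1 g2 g3]
  simp only [neg_neg]

theorem p_1302 (h : Asc A) (g0 g1 g2 g3 : G) : A g1 g3 g0 g2 = -A g0 g1 g2 g3 := by
  rw [h.s12 g1 g0 g3 g2, h.s23 g1 g0 g2 g3, h.s01 g0 g1 g2 g3]
  simp only [neg_neg]

theorem p_1320 (h : Asc A) (g0 g1 g2 g3 : G) : A g1 g3 g2 g0 = A g0 g1 g2 g3 := by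
  rw [h.s12 g1 g2 g3 g0, h.s23 g1 g2 g0 g3, h.s12 g1 g0 g2 g3, h.s01 g0 g1 g2 g3]
  simp only [neg_neg]

theorem p_2013 (h : Asc A) (g0 g1 g2 g3 : G) : A g2 g0 g1 g3 = A g0 g1 g2 g3 := by
  rw [h.s01 g0 g2 g1 g3, h.s12 g0 g1 g2 g3]
  simp only [neg_neg]

theorem p_2031 (h : Asc A) (g0 g1 g2 g3 : G) : A g2 g0 g3 g1 = -A g0 g1 g2 g3 := by
  rw [h.s23 g2 g0 g1 g3, h.s01 g0 g2 g1 g3, h.s12 g0 g1 g2 g3]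
  simp only [neg_neg]

theorem p_2103 (h : Asc A) (g0 g1 g2 g3 : G) : A g2 g1 g0 g3 = -A g0 g1 g2 g3 := by
  rw [h.s01 g1 g2 g0 g3, h.s12 g1 g0 g2 g3, h.s01 g0 g1 g2 g3]
  simp only [neg_neg]

theorem p_2130 (h : Asc A) (g0 g1 g2 g3 : G) : A g2 g1 g3 g0 = A g0 g1 g2 g3 := by
  rw [h.s23 g2 g1 g0 g3, h.s01 g1 g2 g0 g3, h.s12 g1 g0 g2 g3, h.s01 g0 g1 g2 g3]
  simp only [neg_neg]

theorem p_2301 (h : Asc A) (g0 g1 g2 g3 : G) : A g2 g3 g0 g1 = A g0 g1 g2 g3 := by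
  rw [h.s12 g2 g0 g3 g1, h.s23 g2 g0 g1 g3, h.s01 g0 g2 g1 g3, h.s12 g0 g1 g2 g3]
  simp only [neg_neg]

theorem p_2310 (h : Asc A) (g0 g1 g2 g3 : G) : A g2 g3 g1 g0 = -A g0 g1 g2 g3 := by
  rw [h.s12 g2 g1 g3 g0, h.s23 g2 g1 g0 g3, h.s01 g1 g2 g0 g3, h.s12 g1 g0 g2 g3, h.s01 g0 g1 g2 g3]
  simp only [neg_neg]

theorem p_3012 (h : Asc A) (g0 g1 g2 g3 : G) : A g3 g0 g1 g2 = -A g0 g1 g2 g3 := by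
  rw [h.s01 g0 g3 g1 g2, h.s12 g0 g1 g3 g2, h.s23 g0 g1 g2 g3]
  simp only [neg_neg]

theorem p_3021 (h : Asc A) (g0 g1 g2 g3 : G) : A g3 g0 g2 g1 = A g0 g1 g2 g3 := by
  rw [h.s01 g0 g3 g2 g1, h.s12 g0 g2 g3 g1, h.s23 g0 g2 g1 g3, h.s12 g0 g1 g2 g3]
  simp only [neg_neg]

theorem p_3102 (h : Asc A) (g0 g1 g2 g3 : G) : A g3 g1 g0 g2 = A g0 g1 g2 g3 := by
  rw [h.s01 g1 g3 g0 g2, h.s12 g1 g0 g3 g2, h.s23 g1 g0 g2 g3, h.s01 g0 g1 g2 g3]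
  simp only [neg_neg]

theorem p_3120 (h : Asc A) (g0 g1 g2 g3 : G) : A g3 g1 g2 g0 = -A g0 g1 g2 g3 := by
  rw [h.s01 g1 g3 g2 g0, h.s12 g1 g2 g3 g0, h.s23 g1 g2 g0 g3, h.s12 g1 g0 g2 g3, h.s01 g0 g1 g2 g3]
  simp only [neg_neg]

theorem p_3201 (h : Asc A) (g0 g1 g2 g3 : G) : A g3 g2 g0 g1 = -A g0 g1 g2 g3 := by
  rw [h.s01 g2 g3 g0 g1, h.s12 g2 g0 g3 g1, h.s23 g2 g0 g1 g3, h.s01 g0 g2 g1 g3, h.s12 g0 g1 g2 g3]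
  simp only [neg_neg]

theorem p_3210 (h : Asc A) (g0 g1 g2 g3 : G) : A g3 g2 g1 g0 = A g0 g1 g2 g3 := by
  rw [h.s01 g2 g3 g1 g0, h.s12 g2 g1 g3 g0, h.s23 g2 g1 g0 g3, h.s01 g1 g2 g0 g3, h.s12 g1 g0 g2 g3, h.s01 g0 g1 g2 g3]
  simp only [neg_neg]

theorem m_0123 (h : Asc A) (g0 g1 g2 g3 x : G)
    (hx : g1 * g2⁻¹ * g3 * g1⁻¹ * g0 = x) : A g0 g1 g2 g3 = A x g1 g2 g3 := by
  have e := h.mv g0 g1 g2 g3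
  rw [hx, p_0123 h g0 g1 g2 g3, p_0123 h x g1 g2 g3] at e
  exact e.symm

theorem m_0132 (h : Asc A) (g0 g1 g2 g3 x : G)
    (hx : g1 * g3⁻¹ * g2 * g1⁻¹ * g0 = x) : A g0 g1 g2 g3 = A x g1 g2 g3 := by
  have e := h.mv g0 g1 g3 g2
  rw [hx, p_0132 h g0 g1 g2 g3, p_0132 h x g1 g2 g3] at e
  exact (neg_injective e).symm

theorem m_0213 (h : Asc A) (g0 g1 g2 g3 x : G)
    (hx : g2 * g1⁻¹ * g3 * g2⁻¹ * g0 = x) : A g0 g1 g2 g3 = A x g1 g2 g3 := by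
  have e := h.mv g0 g2 g1 g3
  rw [hx, p_0213 h g0 g1 g2 g3, p_0213 h x g1 g2 g3] at e
  exact (neg_injective e).symm

theorem m_0231 (h : Asc A) (g0 g1 g2 g3 x : G)
    (hx : g2 * g3⁻¹ * g1 * g2⁻¹ * g0 = x) : A g0 g1 g2 g3 = A x g1 g2 g3 := by
  have e := h.mv g0 g2 g3 g1
  rw [hx, p_0231 h g0 g1 g2 g3, p_0231 h x g1 g2 g3] at e
  exact e.symm

theorem m_0312 (h : Asc A) (g0 g1 g2 g3 x : G)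
    (hx : g3 * g1⁻¹ * g2 * g3⁻¹ * g0 = x) : A g0 g1 g2 g3 = A x g1 g2 g3 := by
  have e := h.mv g0 g3 g1 g2
  rw [hx, p_0312 h g0 g1 g2 g3, p_0312 h x g1 g2 g3] at e
  exact e.symm

theorem m_0321 (h : Asc A) (g0 g1 g2 g3 x : G)
    (hx : g3 * g2⁻¹ * g1 * g3⁻¹ * g0 = x) : A g0 g1 g2 g3 = A x g1 g2 g3 := by
  have e := h.mv g0 g3 g2 g1
  rw [hx, p_0321 h g0 g1 g2 g3, p_0321 h x g1 g2 g3] at e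
  exact (neg_injective e).symm

theorem m_1023 (h : Asc A) (g0 g1 g2 g3 x : G)
    (hx : g0 * g2⁻¹ * g3 * g0⁻¹ * g1 = x) : A g0 g1 g2 g3 = A g0 x g2 g3 := by
  have e := h.mv g1 g0 g2 g3
  rw [hx, p_1023 h g0 g1 g2 g3, p_1023 h g0 x g2 g3] at e
  exact (neg_injective e).symm

theorem m_1032 (h : Asc A) (g0 g1 g2 g3 x : G)
    (hx : g0 * g3⁻¹ * g2 * g0⁻¹ * g1 = x) : A g0 g1 g2 g3 = A g0 x g2 g3 := by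
  have e := h.mv g1 g0 g3 g2
  rw [hx, p_1032 h g0 g1 g2 g3, p_1032 h g0 x g2 g3] at e
  exact e.symm

theorem m_1203 (h : Asc A) (g0 g1 g2 g3 x : G)
    (hx : g2 * g0⁻¹ * g3 * g2⁻¹ * g1 = x) : A g0 g1 g2 g3 = A g0 x g2 g3 := by
  have e := h.mv g1 g2 g0 g3
  rw [hx, p_1203 h g0 g1 g2 g3, p_1203 h g0 x g2 g3] at e
  exact e.symm

theorem m_1230 (h : Asc A) (g0 g1 g2 g3 x : G)
    (hx : g2 * g3⁻¹ * g0 * g2⁻¹ * g1 = x) : A g0 g1 g2 g3 = A g0 x g2 g3 := by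
  have e := h.mv g1 g2 g3 g0
  rw [hx, p_1230 h g0 g1 g2 g3, p_1230 h g0 x g2 g3] at e
  exact (neg_injective e).symm

theorem m_1302 (h : Asc A) (g0 g1 g2 g3 x : G)
    (hx : g3 * g0⁻¹ * g2 * g3⁻¹ * g1 = x) : A g0 g1 g2 g3 = A g0 x g2 g3 := by
  have e := h.mv g1 g3 g0 g2
  rw [hx, p_1302 h g0 g1 g2 g3, p_1302 h g0 x g2 g3] at e
  exact (neg_injective e).symm

theorem m_1320 (h : Asc A) (g0 g1 g2 g3 x : G)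
    (hx : g3 * g2⁻¹ * g0 * g3⁻¹ * g1 = x) : A g0 g1 g2 g3 = A g0 x g2 g3 := by
  have e := h.mv g1 g3 g2 g0
  rw [hx, p_1320 h g0 g1 g2 g3, p_1320 h g0 x g2 g3] at e
  exact e.symm

theorem m_2013 (h : Asc A) (g0 g1 g2 g3 x : G)
    (hx : g0 * g1⁻¹ * g3 * g0⁻¹ * g2 = x) : A g0 g1 g2 g3 = A g0 g1 x g3 := by
  have e := h.mv g2 g0 g1 g3
  rw [hx, p_2013 h g0 g1 g2 g3, p_2013 h g0 g1 x g3] at e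
  exact e.symm

theorem m_2031 (h : Asc A) (g0 g1 g2 g3 x : G)
    (hx : g0 * g3⁻¹ * g1 * g0⁻¹ * g2 = x) : A g0 g1 g2 g3 = A g0 g1 x g3 := by
  have e := h.mv g2 g0 g3 g1
  rw [hx, p_2031 h g0 g1 g2 g3, p_2031 h g0 g1 x g3] at e
  exact (neg_injective e).symm

theorem m_2103 (h : Asc A) (g0 g1 g2 g3 x : G)
    (hx : g1 * g0⁻¹ * g3 * g1⁻¹ * g2 = x) : A g0 g1 g2 g3 = A g0 g1 x g3 := by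
  have e := h.mv g2 g1 g0 g3
  rw [hx, p_2103 h g0 g1 g2 g3, p_2103 h g0 g1 x g3] at e
  exact (neg_injective e).symm

theorem m_2130 (h : Asc A) (g0 g1 g2 g3 x : G)
    (hx : g1 * g3⁻¹ * g0 * g1⁻¹ * g2 = x) : A g0 g1 g2 g3 = A g0 g1 x g3 := by
  have e := h.mv g2 g1 g3 g0
  rw [hx, p_2130 h g0 g1 g2 g3, p_2130 h g0 g1 x g3] at e
  exact e.symm

theorem m_2301 (h : Asc A) (g0 g1 g2 g3 x : G)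
    (hx : g3 * g0⁻¹ * g1 * g3⁻¹ * g2 = x) : A g0 g1 g2 g3 = A g0 g1 x g3 := by
  have e := h.mv g2 g3 g0 g1
  rw [hx, p_2301 h g0 g1 g2 g3, p_2301 h g0 g1 x g3] at e
  exact e.symm

theorem m_2310 (h : Asc A) (g0 g1 g2 g3 x : G)
    (hx : g3 * g1⁻¹ * g0 * g3⁻¹ * g2 = x) : A g0 g1 g2 g3 = A g0 g1 x g3 := by
  have e := h.mv g2 g3 g1 g0
  rw [hx, p_2310 h g0 g1 g2 g3, p_2310 h g0 g1 x g3] at e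
  exact (neg_injective e).symm

theorem m_3012 (h : Asc A) (g0 g1 g2 g3 x : G)
    (hx : g0 * g1⁻¹ * g2 * g0⁻¹ * g3 = x) : A g0 g1 g2 g3 = A g0 g1 g2 x := by
  have e := h.mv g3 g0 g1 g2
  rw [hx, p_3012 h g0 g1 g2 g3, p_3012 h g0 g1 g2 x] at e
  exact (neg_injective e).symm

theorem m_3021 (h : Asc A) (g0 g1 g2 g3 x : G)
    (hx : g0 * g2⁻¹ * g1 * g0⁻¹ * g3 = x) : A g0 g1 g2 g3 = A g0 g1 g2 x := by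
  have e := h.mv g3 g0 g2 g1
  rw [hx, p_3021 h g0 g1 g2 g3, p_3021 h g0 g1 g2 x] at e
  exact e.symm

theorem m_3102 (h : Asc A) (g0 g1 g2 g3 x : G)
    (hx : g1 * g0⁻¹ * g2 * g1⁻¹ * g3 = x) : A g0 g1 g2 g3 = A g0 g1 g2 x := by
  have e := h.mv g3 g1 g0 g2
  rw [hx, p_3102 h g0 g1 g2 g3, p_3102 h g0 g1 g2 x] at e
  exact e.symm

theorem m_3120 (h : Asc A) (g0 g1 g2 g3 x : G)
    (hx : g1 * g2⁻¹ * g0 * g1⁻¹ * g3 = x) : A g0 g1 g2 g3 = A g0 g1 g2 x := by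
  have e := h.mv g3 g1 g2 g0
  rw [hx, p_3120 h g0 g1 g2 g3, p_3120 h g0 g1 g2 x] at e
  exact (neg_injective e).symm

theorem m_3201 (h : Asc A) (g0 g1 g2 g3 x : G)
    (hx : g2 * g0⁻¹ * g1 * g2⁻¹ * g3 = x) : A g0 g1 g2 g3 = A g0 g1 g2 x := by
  have e := h.mv g3 g2 g0 g1
  rw [hx, p_3201 h g0 g1 g2 g3, p_3201 h g0 g1 g2 x] at e
  exact (neg_injective e).symm

theorem m_3210 (h : Asc A) (g0 g1 g2 g3 x : G)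
    (hx : g2 * g1⁻¹ * g0 * g2⁻¹ * g3 = x) : A g0 g1 g2 g3 = A g0 g1 g2 x := by
  have e := h.mv g3 g2 g1 g0
  rw [hx, p_3210 h g0 g1 g2 g3, p_3210 h g0 g1 g2 x] at e
  exact e.symm

/-- The chain of moves. -/
theorem chain1 (h : Asc A) (c q w : G) : A 1 c w (q * c⁻¹ * w) = A 1 c w (q * w) := by
  have e0 : A 1 c w (q * c⁻¹ * w) =
      A 1 (w * q) w (q * c⁻¹ * w) :=
    m_1203 h _ _ _ _ _ (by group)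
  have e1 : A 1 (w * q) w (q * c⁻¹ * w) =
      A (w⁻¹) q 1 (w⁻¹ * q * c⁻¹ * w) :=
    tr h (w⁻¹) _ _ _ _ _ _ _ _ (by group) (by group) (by group) (by group)
  have e2 : A (w⁻¹) q 1 (w⁻¹ * q * c⁻¹ * w) =
      A (w⁻¹) q 1 (w⁻¹ * c⁻¹ * w) :=
    m_3012 h _ _ _ _ _ (by group)
  have e3 : A (w⁻¹) q 1 (w⁻¹ * c⁻¹ * w) =
      A (w⁻¹) q (w⁻¹ * w⁻¹ * c * w * q * w) (w⁻¹ * c⁻¹ * w) :=
    m_2031 h _ _ _ _ _ (by group)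
  have e4 : A (w⁻¹) q (w⁻¹ * w⁻¹ * c * w * q * w) (w⁻¹ * c⁻¹ * w) =
      A 1 (w * q) (w⁻¹ * c * w * q * w) (c⁻¹ * w) :=
    tr h (w) _ _ _ _ _ _ _ _ (by group) (by group) (by group) (by group)
  have e5 : A 1 (w * q) (w⁻¹ * c * w * q * w) (c⁻¹ * w) =
      A 1 (c⁻¹) (w⁻¹ * c * w * q * w) (c⁻¹ * w) :=
    m_1320 h _ _ _ _ _ (by group)
  have e6 : A 1 (c⁻¹) (w⁻¹ * c * w * q * w) (c⁻¹ * w) =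
      A 1 (c⁻¹) (c * w * q * w) (c⁻¹ * w) :=
    m_2013 h _ _ _ _ _ (by group)
  have e7 : A 1 (c⁻¹) (c * w * q * w) (c⁻¹ * w) =
      A 1 (c⁻¹) (c * w * q * w) (w * q * w * w) :=
    m_3102 h _ _ _ _ _ (by group)
  have e8 : A 1 (c⁻¹) (c * w * q * w) (w * q * w * w) =
      A 1 (c⁻¹) (w⁻¹) (w * q * w * w) :=
    m_2031 h _ _ _ _ _ (by group)
  have e9 : A 1 (c⁻¹) (w⁻¹) (w * q * w * w) =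
      A 1 (w⁻¹ * w⁻¹ * q⁻¹ * w⁻¹ * w⁻¹ * c⁻¹) (w⁻¹) (w * q * w * w) :=
    m_1032 h _ _ _ _ _ (by group)
  have e10 : A 1 (w⁻¹ * w⁻¹ * q⁻¹ * w⁻¹ * w⁻¹ * c⁻¹) (w⁻¹) (w * q * w * w) =
      A 1 (w⁻¹ * w⁻¹ * q⁻¹ * w⁻¹ * w⁻¹ * c⁻¹) (w * q * w * w * c) (w * q * w * w) :=
    m_2310 h _ _ _ _ _ (by group)
  have e11 : A 1 (w⁻¹ * w⁻¹ * q⁻¹ * w⁻¹ * w⁻¹ * c⁻¹) (w * q * w * w * c) (w * q * w * w) =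
      A (w⁻¹ * w⁻¹ * q⁻¹ * w⁻¹) (w⁻¹ * w⁻¹ * q⁻¹ * w⁻¹ * w⁻¹ * w⁻¹ * q⁻¹ * w⁻¹ * w⁻¹ * c⁻¹) c 1 :=
    tr h (w⁻¹ * w⁻¹ * q⁻¹ * w⁻¹) _ _ _ _ _ _ _ _ (by group) (by group) (by group) (by group)
  have e12 : A (w⁻¹ * w⁻¹ * q⁻¹ * w⁻¹) (w⁻¹ * w⁻¹ * q⁻¹ * w⁻¹ * w⁻¹ * w⁻¹ * q⁻¹ * w⁻¹ * w⁻¹ * c⁻¹) c 1 =
      A (w⁻¹ * w⁻¹ * q⁻¹ * w⁻¹) (w⁻¹ * w⁻¹ * q⁻¹ * w⁻¹ * c⁻¹ * w⁻¹ * w⁻¹ * q⁻¹ * w⁻¹ * w⁻¹ * c⁻¹) c 1 :=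
    m_1023 h _ _ _ _ _ (by group)
  have e13 : A (w⁻¹ * w⁻¹ * q⁻¹ * w⁻¹) (w⁻¹ * w⁻¹ * q⁻¹ * w⁻¹ * c⁻¹ * w⁻¹ * w⁻¹ * q⁻¹ * w⁻¹ * w⁻¹ * c⁻¹) c 1 =
      A (w⁻¹ * w⁻¹ * q⁻¹ * w⁻¹) (w⁻¹ * w⁻¹ * q⁻¹ * w⁻¹ * c⁻¹ * w⁻¹ * w⁻¹ * q⁻¹ * w⁻¹ * w⁻¹ * c⁻¹) c (w⁻¹ * w⁻¹ * q⁻¹ * w⁻¹ * w⁻¹ * c⁻¹ * c⁻¹) :=
    m_3201 h _ _ _ _ _ (by group)
  have e14 : A (w⁻¹ * w⁻¹ * q⁻¹ * w⁻¹) (w⁻¹ * w⁻¹ * q⁻¹ * w⁻¹ * c⁻¹ * w⁻¹ * w⁻¹ * q⁻¹ * w⁻¹ * w⁻¹ * c⁻¹) c (w⁻¹ * w⁻¹ * q⁻¹ * w⁻¹ * w⁻¹ * c⁻¹ * c⁻¹) =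
      A 1 (c⁻¹ * w⁻¹ * w⁻¹ * q⁻¹ * w⁻¹ * w⁻¹ * c⁻¹) (w * q * w * w * c) (w⁻¹ * c⁻¹ * c⁻¹) :=
    tr h (w * q * w * w) _ _ _ _ _ _ _ _ (by group) (by group) (by group) (by group)
  have e15 : A 1 (c⁻¹ * w⁻¹ * w⁻¹ * q⁻¹ * w⁻¹ * w⁻¹ * c⁻¹) (w * q * w * w * c) (w⁻¹ * c⁻¹ * c⁻¹) =
      A 1 c (w * q * w * w * c) (w⁻¹ * c⁻¹ * c⁻¹) :=
    m_1032 h _ _ _ _ _ (by group)
  have e16 : A 1 c (w * q * w * w * c) (w⁻¹ * c⁻¹ * c⁻¹) =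
      A 1 c (w * q * w * w * c) (c * w * q * w * c⁻¹ * c⁻¹) :=
    m_3102 h _ _ _ _ _ (by group)
  have e17 : A 1 c (w * q * w * w * c) (c * w * q * w * c⁻¹ * c⁻¹) =
      A (c⁻¹) 1 (c⁻¹ * w * q * w * w * c) (w * q * w * c⁻¹ * c⁻¹) :=
    tr h (c⁻¹) _ _ _ _ _ _ _ _ (by group) (by group) (by group) (by group)
  have e18 : A (c⁻¹) 1 (c⁻¹ * w * q * w * w * c) (w * q * w * c⁻¹ * c⁻¹) =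
      A (c⁻¹) 1 (c * w * c) (w * q * w * c⁻¹ * c⁻¹) :=
    m_2031 h _ _ _ _ _ (by group)
  have e19 : A (c⁻¹) 1 (c * w * c) (w * q * w * c⁻¹ * c⁻¹) =
      A (c⁻¹) 1 (c * w * c) (c⁻¹ * c⁻¹ * q * w * c⁻¹ * c⁻¹) :=
    m_3021 h _ _ _ _ _ (by group)
  have e20 : A (c⁻¹) 1 (c * w * c) (c⁻¹ * c⁻¹ * q * w * c⁻¹ * c⁻¹) =
      A (c⁻¹) 1 (c⁻¹ * q * w * c⁻¹ * w * c) (c⁻¹ * c⁻¹ * q * w * c⁻¹ * c⁻¹) :=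
    m_2103 h _ _ _ _ _ (by group)
  have e21 : A (c⁻¹) 1 (c⁻¹ * q * w * c⁻¹ * w * c) (c⁻¹ * c⁻¹ * q * w * c⁻¹ * c⁻¹) =
      A 1 c (q * w * c⁻¹ * w * c) (c⁻¹ * q * w * c⁻¹ * c⁻¹) :=
    tr h (c) _ _ _ _ _ _ _ _ (by group) (by group) (by group) (by group)
  have e22 : A 1 c (q * w * c⁻¹ * w * c) (c⁻¹ * q * w * c⁻¹ * c⁻¹) =
      A 1 c (q * w * c⁻¹ * w * c) (c⁻¹ * w⁻¹ * c⁻¹) :=
    m_3021 h _ _ _ _ _ (by group)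
  have e23 : A 1 c (q * w * c⁻¹ * w * c) (c⁻¹ * w⁻¹ * c⁻¹) =
      A 1 (c⁻¹ * w⁻¹ * c * w⁻¹ * q⁻¹ * c⁻¹ * w⁻¹) (q * w * c⁻¹ * w * c) (c⁻¹ * w⁻¹ * c⁻¹) :=
    m_1023 h _ _ _ _ _ (by group)
  have e24 : A 1 (c⁻¹ * w⁻¹ * c * w⁻¹ * q⁻¹ * c⁻¹ * w⁻¹) (q * w * c⁻¹ * w * c) (c⁻¹ * w⁻¹ * c⁻¹) =
      A 1 (c⁻¹ * w⁻¹ * c * w⁻¹ * q⁻¹ * c⁻¹ * w⁻¹) (q * w * c⁻¹ * w * c) (q * w * c⁻¹ * w) :=
    m_3210 h _ _ _ _ _ (by group)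
  have e25 : A 1 (c⁻¹ * w⁻¹ * c * w⁻¹ * q⁻¹ * c⁻¹ * w⁻¹) (q * w * c⁻¹ * w * c) (q * w * c⁻¹ * w) =
      A (w⁻¹ * c * w⁻¹ * q⁻¹) (w⁻¹ * c * w⁻¹ * q⁻¹ * c⁻¹ * w⁻¹ * c * w⁻¹ * q⁻¹ * c⁻¹ * w⁻¹) c 1 :=
    tr h (w⁻¹ * c * w⁻¹ * q⁻¹) _ _ _ _ _ _ _ _ (by group) (by group) (by group) (by group)
  have e26 : A (w⁻¹ * c * w⁻¹ * q⁻¹) (w⁻¹ * c * w⁻¹ * q⁻¹ * c⁻¹ * w⁻¹ * c * w⁻¹ * q⁻¹ * c⁻¹ * w⁻¹) c 1 =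
      A (w⁻¹ * c * w⁻¹ * q⁻¹) (w⁻¹ * c * w⁻¹ * q⁻¹ * w⁻¹ * c * w⁻¹ * q⁻¹ * c⁻¹ * w⁻¹) c 1 :=
    m_1032 h _ _ _ _ _ (by group)
  have e27 : A (w⁻¹ * c * w⁻¹ * q⁻¹) (w⁻¹ * c * w⁻¹ * q⁻¹ * w⁻¹ * c * w⁻¹ * q⁻¹ * c⁻¹ * w⁻¹) c 1 =
      A (w⁻¹ * c * w⁻¹ * q⁻¹) (w⁻¹ * c * w⁻¹ * q⁻¹ * w⁻¹ * c * w⁻¹ * q⁻¹ * c⁻¹ * w⁻¹) (w⁻¹ * c * w⁻¹ * q⁻¹ * c⁻¹ * w⁻¹ * c) 1 :=
    m_2301 h _ _ _ _ _ (by group)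
  have e28 : A (w⁻¹ * c * w⁻¹ * q⁻¹) (w⁻¹ * c * w⁻¹ * q⁻¹ * w⁻¹ * c * w⁻¹ * q⁻¹ * c⁻¹ * w⁻¹) (w⁻¹ * c * w⁻¹ * q⁻¹ * c⁻¹ * w⁻¹ * c) 1 =
      A 1 (w⁻¹ * c * w⁻¹ * q⁻¹ * c⁻¹ * w⁻¹) (c⁻¹ * w⁻¹ * c) (q * w * c⁻¹ * w) :=
    tr h (q * w * c⁻¹ * w) _ _ _ _ _ _ _ _ (by group) (by group) (by group) (by group)
  have e29 : A 1 (w⁻¹ * c * w⁻¹ * q⁻¹ * c⁻¹ * w⁻¹) (c⁻¹ * w⁻¹ * c) (q * w * c⁻¹ * w) =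
      A 1 (c⁻¹) (c⁻¹ * w⁻¹ * c) (q * w * c⁻¹ * w) :=
    m_1023 h _ _ _ _ _ (by group)
  have e30 : A 1 (c⁻¹) (c⁻¹ * w⁻¹ * c) (q * w * c⁻¹ * w) =
      A 1 (c⁻¹) (c⁻¹ * q * w) (q * w * c⁻¹ * w) :=
    m_2103 h _ _ _ _ _ (by group)
  have e31 : A 1 (c⁻¹) (c⁻¹ * q * w) (q * w * c⁻¹ * w) =
      A 1 (c⁻¹) (c⁻¹ * q * w) (c⁻¹ * w) :=
    m_3021 h _ _ _ _ _ (by group)
  have e32 : A 1 (c⁻¹) (c⁻¹ * q * w) (c⁻¹ * w) =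
      A c 1 (q * w) w :=
    tr h (c) _ _ _ _ _ _ _ _ (by group) (by group) (by group) (by group)
  rw [e0, e1, e2, e3, e4, e5, e6, e7, e8, e9, e10, e11, e12, e13, e14, e15, e16, e17, e18, e19, e20, e21, e22, e23, e24, e25, e26, e27, e28, e29, e30, e31, e32]
  exact p_1032 h 1 c w (q * w)

/-- The new invariance, first form. -/
theorem N0 (h : Asc A) (c q w : G) : A c q w (q * w) = -A 1 q w (q * c⁻¹ * w) := by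
  have k1 := h.coc 1 c q w (q * w)
  have k2 := h.coc 1 c q w (q * c⁻¹ * w)
  have z1 : A 1 q w (q * w) = 0 := by
    rw [h.s12 1 w q (q * w), h.flex w q, neg_zero]
  have z2 : A c q w (q * c⁻¹ * w) = 0 := by
    rw [tr h c⁻¹ c q w (q * c⁻¹ * w) 1 (c⁻¹ * q) (c⁻¹ * w) ((c⁻¹ * q) * (c⁻¹ * w)) (by group) rfl
      rfl (by group), h.s12 1 (c⁻¹ * w) (c⁻¹ * q), h.flex, neg_zero]
  have c1 := chain1 h c q w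
  have m1 : A 1 c q (q * w) = A 1 c q (q * c⁻¹ * w) := m_3210 h _ _ _ _ _ (by group)
  rw [z1] at k1
  rw [z2, c1, ← m1] at k2
  have k3 : A c q w (q * w) - -A 1 q w (q * c⁻¹ * w) =
      (A c q w (q * w) - 0 + A 1 c w (q * w) - A 1 c q (q * w) + A 1 c q w) -
      (0 - A 1 q w (q * c⁻¹ * w) + A 1 c w (q * w) - A 1 c q (q * w) + A 1 c q w) := by abel
  rw [k1, k2, sub_zero] at k3
  exact sub_eq_zero.mp k3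

/-- The new invariance. -/
theorem N1 (h : Asc A) (g0 g1 g2 g3 : G) :
    A g0 g1 g2 g3 = A (g1 * g0⁻¹ * g2) g1 g2 (g2 * g3⁻¹ * g1) := by
  have a1 := N0 h ((g1⁻¹ * g3 * g2⁻¹) * g0) ((g1⁻¹ * g3 * g2⁻¹) * g1) ((g1⁻¹ * g3 * g2⁻¹) * g2)
  have b1 : A g0 g1 g2 g3 = A ((g1⁻¹ * g3 * g2⁻¹) * g0) ((g1⁻¹ * g3 * g2⁻¹) * g1)
      ((g1⁻¹ * g3 * g2⁻¹) * g2) (((g1⁻¹ * g3 * g2⁻¹) * g1) * ((g1⁻¹ * g3 * g2⁻¹) * g2)) :=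
    tr h (g1⁻¹ * g3 * g2⁻¹) _ _ _ _ _ _ _ _ rfl rfl rfl (by group)
  have b2 : A (g2 * g3⁻¹ * g1) g1 g2 (g1 * g0⁻¹ * g2) = A 1 ((g1⁻¹ * g3 * g2⁻¹) * g1)
      ((g1⁻¹ * g3 * g2⁻¹) * g2)
      (((g1⁻¹ * g3 * g2⁻¹) * g1) * ((g1⁻¹ * g3 * g2⁻¹) * g0)⁻¹ * ((g1⁻¹ * g3 * g2⁻¹) * g2)) :=
    tr h (g1⁻¹ * g3 * g2⁻¹) _ _ _ _ _ _ _ _ (by group) rfl rfl (by group)
  rw [b1, a1, ← b2]
  exact (p_3120 h (g2 * g3⁻¹ * g1) g1 g2 (g1 * g0⁻¹ * g2)).symm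

theorem n_0123 (h : Asc A) (g0 g1 g2 g3 x y : G) (hx : g1 * g0⁻¹ * g2 = x)
    (hy : g2 * g3⁻¹ * g1 = y) : A g0 g1 g2 g3 = A x g1 g2 y := by
  have e := N1 h g0 g1 g2 g3
  rw [hx, hy, p_0123 h g0 g1 g2 g3, p_0123 h x g1 g2 y] at e
  exact e

theorem n_0213 (h : Asc A) (g0 g1 g2 g3 x y : G) (hx : g2 * g0⁻¹ * g1 = x)
    (hy : g1 * g3⁻¹ * g2 = y) : A g0 g1 g2 g3 = A x g1 g2 y := by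
  have e := N1 h g0 g2 g1 g3
  rw [hx, hy, p_0213 h g0 g1 g2 g3, p_0213 h x g1 g2 y] at e
  exact neg_injective e

theorem n_1023 (h : Asc A) (g0 g1 g2 g3 x y : G) (hx : g0 * g1⁻¹ * g2 = x)
    (hy : g2 * g3⁻¹ * g0 = y) : A g0 g1 g2 g3 = A g0 x g2 y := by
  have e := N1 h g1 g0 g2 g3
  rw [hx, hy, p_1023 h g0 g1 g2 g3, p_1023 h g0 x g2 y] at e
  exact neg_injective e

theorem n_1203 (h : Asc A) (g0 g1 g2 g3 x y : G) (hx : g2 * g1⁻¹ * g0 = x)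
    (hy : g0 * g3⁻¹ * g2 = y) : A g0 g1 g2 g3 = A g0 x g2 y := by
  have e := N1 h g1 g2 g0 g3
  rw [hx, hy, p_1203 h g0 g1 g2 g3, p_1203 h g0 x g2 y] at e
  exact e

/-- The Moufang move. -/
theorem T_move (h : Asc A) (c q w : G) : A 1 c q w = A 1 c q (q * w) := by
  have e0 : A 1 c q w =
      A 1 (q * c⁻¹) q (w⁻¹ * q) :=
    n_1203 h _ _ _ _ _ _ (by group) (by group)
  have e1 : A 1 (q * c⁻¹) q (w⁻¹ * q) =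
      A (q⁻¹) (c⁻¹) 1 (q⁻¹ * w⁻¹ * q) :=
    tr h (q⁻¹) _ _ _ _ _ _ _ _ (by group) (by group) (by group) (by group)
  have e2 : A (q⁻¹) (c⁻¹) 1 (q⁻¹ * w⁻¹ * q) =
      A (c⁻¹ * q) (c⁻¹) 1 (q⁻¹ * w * q * c⁻¹) :=
    n_0123 h _ _ _ _ _ _ (by group) (by group)
  have e3 : A (c⁻¹ * q) (c⁻¹) 1 (q⁻¹ * w * q * c⁻¹) =
      A (c⁻¹ * q) (c⁻¹) 1 (w * q * c⁻¹) :=
    m_3210 h _ _ _ _ _ (by group)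
  have e4 : A (c⁻¹ * q) (c⁻¹) 1 (w * q * c⁻¹) =
      A (q⁻¹) (c⁻¹) 1 (q⁻¹ * w⁻¹) :=
    n_0213 h _ _ _ _ _ _ (by group) (by group)
  have e5 : A (q⁻¹) (c⁻¹) 1 (q⁻¹ * w⁻¹) =
      A (q⁻¹) (q⁻¹ * c) 1 w :=
    n_1023 h _ _ _ _ _ _ (by group) (by group)
  rw [e0, e1, e2, e3, e4, e5]
  exact tr h q _ _ _ _ _ _ _ _ (by group) (by group) (by group) (by group)

end

end Pool.Agent.helper48.SUF
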