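import Pool.Agent.helper48.SUF.Defs
import Pool.Agent.helper48.SUF.Moves

/-!
# The associator of an IP loop that is a central extension of a group
-/

set_option autoImplicit false

namespace Pool.Agent.helper48.SUF

section basic

variable {Q : Type*} [Loop Q]

theorem mul_ld (x y : Q) : x * ld x y = y :=
  (Equiv.ofBijective (fun u : Q => x * u) (Loop.bij_left x)).apply_symm_apply y

theorem rd_mul (x y : Q) : rd x y * y = x :=
  (Equiv.ofBijective (fun u : Q => u * y) (Loop.bij_right y)).apply_symm_apply x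

theorem lcancel {a x y : Q} (h : a * x = a * y) : x = y := (Loop.bij_left a).1 h

theorem rcancel {a x y : Q} (h : x * a = y * a) : x = y := (Loop.bij_right a).1 h

theorem ld_unique {x y u : Q} (h : x * u = y) : u = ld x y := lcancel (h.trans (mul_ld x y).symm)

theorem rd_unique {x y u : Q} (h : u * y = x) : u = rd x y := rcancel (h.trans (rd_mul x y).symm)

/-- The inverse. -/
noncomputable def iv (x : Q) : Q := ld x 1

theorem iv_mul_cancel (h : InverseProperty Q) (x y : Q) : iv x * (x * y) = y := by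
  have h1 := ((h x).2 (x * y)).1
  rw [← ld_unique (rfl : x * y = x * y)] at h1
  exact h1.symm

theorem mul_iv_cancel (h : InverseProperty Q) (x y : Q) : (y * x) * iv x = y := by
  have h1 := ((h x).2 (y * x)).2
  rw [← rd_unique (rfl : y * x = y * x)] at h1
  exact h1.symm

theorem mul_iv (x : Q) : x * iv x = 1 := mul_ld x 1

theorem iv_mul (h : InverseProperty Q) (x : Q) : iv x * x = 1 := by
  have h1 := iv_mul_cancel h x 1
  rwa [Loop.mul_one'] at h1

theorem iv_iv (h : InverseProperty Q) (x : Q) : iv (iv x) = x :=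
  (ld_unique (iv_mul h x)).symm

theorem mul_iv_mul (h : InverseProperty Q) (x y : Q) : x * (iv x * y) = y := by
  have h1 := iv_mul_cancel h (iv x) y
  rwa [iv_iv h] at h1

/-- The flexible law of `Q`. -/
theorem flex_of (h : SemiUniversallyFlexible Q) (x y : Q) : x * (y * x) = (x * y) * x := by
  have h1 := h.1 1 x y
  have h2 : ∀ a b : Q, iso 1 1 a b = a * b := by
    intro a b
    unfold iso
    rw [← rd_unique (Loop.mul_one' a), ← ld_unique (Loop.one_mul' b)]
  simpa only [h2] using h1

/-- The law of the right isotopes. -/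
theorem right_law (h : SemiUniversallyFlexible Q) (hi : InverseProperty Q) (x c y : Q) :
    x * (c * (y * (c * x))) = (x * (c * y)) * (c * x) := by
  have h1 := h.2 (iv c) x y
  have h2 : ∀ a b : Q, iso 1 (iv c) a b = a * (c * b) := by
    intro a b
    unfold iso
    rw [← rd_unique (Loop.mul_one' a), ← ld_unique (iv_mul_cancel hi c b)]
  simpa only [h2] using h1

/-! ## The centre -/

theorem central_one : Central (1 : Q) :=
  ⟨fun x => by rw [Loop.one_mul', Loop.mul_one'],
    fun x y => by rw [Loop.one_mul', Loop.one_mul'],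
    fun x y => by rw [Loop.mul_one', Loop.one_mul'],
    fun x y => by rw [Loop.mul_one', Loop.mul_one']⟩

theorem Central.mul {m n : Q} (hm : Central m) (hn : Central n) : Central (m * n) := by
  refine ⟨fun x => ?_, fun x y => ?_, fun x y => ?_, fun x y => ?_⟩
  · rw [hm.2.1, hn.1, ← hm.2.1, hm.1, hm.2.2.1]
  · rw [hm.2.1, hm.2.1, hn.2.1, hm.2.1]
  · rw [← hn.2.2.2, hn.2.2.1, hm.2.2.1, hm.2.1]
  · rw [← hn.2.2.2, hm.2.2.2, hn.2.2.2, hn.2.2.2]

theorem iv_cancel_right (h : InverseProperty Q) (x y : Q) : (y * iv x) * x = y := by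
  have h1 := mul_iv_cancel h (iv x) y
  rwa [iv_iv h] at h1

theorem Central.iv (h : InverseProperty Q) {n : Q} (hn : Central n) : Central (iv n) := by
  have h1 : ∀ x : Q, SUF.iv n * x = x * SUF.iv n := by
    intro x
    apply lcancel (a := n)
    rw [mul_iv_mul h, ← hn.2.1, hn.1, mul_iv_cancel h]
  refine ⟨h1, fun x y => ?_, fun x y => ?_, fun x y => ?_⟩
  · apply lcancel (a := n)
    rw [← hn.2.1, mul_iv_mul h, mul_iv_mul h]
  · have e : y = n * (SUF.iv n * y) := (mul_iv_mul h n y).symm
    have e2 : (x * SUF.iv n) * (n * (SUF.iv n * y)) = x * (SUF.iv n * y) := by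
      rw [← hn.2.2.1, iv_cancel_right h]
    rw [← e] at e2
    exact e2
  · apply rcancel (a := n)
    rw [iv_cancel_right h, hn.2.2.2, iv_cancel_right h]

theorem c1 {n : Q} (hn : Central n) (u w : Q) : (u * n) * w = (u * w) * n := by
  rw [hn.2.2.1, hn.1, hn.2.2.2]

theorem c2 {n : Q} (hn : Central n) (u w : Q) : u * (w * n) = (u * w) * n :=
  (hn.2.2.2 u w).symm

/-- The centre as an additive commutative group. -/
@[reducible] noncomputable def zG (hi : InverseProperty Q) : AddCommGroup {n : Q // Central n} :=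
  letI z0 : Zero {n : Q // Central n} := ⟨⟨1, central_one⟩⟩
  letI z1 : Add {n : Q // Central n} := ⟨fun m n => ⟨m.1 * n.1, m.2.mul n.2⟩⟩
  letI z2 : Neg {n : Q // Central n} := ⟨fun m => ⟨SUF.iv m.1, m.2.iv hi⟩⟩
  { AddGroup.ofLeftAxioms (G := {n : Q // Central n})
      (fun a b c => Subtype.ext (a.2.2.1 b.1 c.1))
      (fun a => Subtype.ext (Loop.one_mul' a.1))
      (fun a => Subtype.ext (iv_mul hi a.1)) with
    add_comm := fun a b => Subtype.ext (a.2.1 b.1) }

/-- The associator. -/
noncomputable def asc (x y z : Q) : Q := ld (x * (y * z)) ((x * y) * z)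

theorem asc_spec (x y z : Q) : (x * y) * z = (x * (y * z)) * asc x y z := (mul_ld _ _).symm

theorem asc_uni {x y z n : Q} (h : (x * y) * z = (x * (y * z)) * n) : asc x y z = n :=
  (ld_unique h.symm).symm

end basic

/-- A central extension of a group. -/
structure CE (Q : Type*) [Loop Q] {G : Type*} [Group G] (f : Q → G) : Prop where
  hom : ∀ x y, f (x * y) = f x * f y
  cen : ∀ n, f n = 1 → Central n

section ce

variable {Q : Type*} [Loop Q] {G : Type*} [Group G] {f : Q → G}

theorem CE.ld (h : CE Q f) (x y : Q) : f (ld x y) = (f x)⁻¹ * f y := by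
  have h1 := h.hom x (SUF.ld x y)
  rw [mul_ld] at h1
  rw [h1, inv_mul_cancel_left]

theorem CE.asc (h : CE Q f) (x y z : Q) : Central (asc x y z) := by
  apply h.cen
  unfold SUF.asc
  rw [h.ld, h.hom, h.hom, h.hom, h.hom, mul_assoc, inv_mul_cancel]

theorem CE.cls (h : CE Q f) {x x' : Q} (e : f x = f x') : ∃ n, Central n ∧ x' = x * n := by
  refine ⟨SUF.ld x x', h.cen _ ?_, (mul_ld _ _).symm⟩
  rw [h.ld, e, inv_mul_cancel]

theorem CE.m1 (h : CE Q f) {n : Q} (hn : Central n) (x y z : Q) :
    SUF.asc (x * n) y z = SUF.asc x y z := by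
  apply asc_uni
  have ha := h.asc x y z
  rw [c1 hn, c1 hn, asc_spec x y z, c1 hn, c1 ha]

theorem CE.m2 (h : CE Q f) {n : Q} (hn : Central n) (x y z : Q) :
    SUF.asc x (y * n) z = SUF.asc x y z := by
  apply asc_uni
  have ha := h.asc x y z
  rw [c2 hn, c1 hn, asc_spec x y z, c1 hn, c2 hn, c1 ha]

theorem CE.m3 (h : CE Q f) {n : Q} (hn : Central n) (x y z : Q) :
    SUF.asc x y (z * n) = SUF.asc x y z := by
  apply asc_uni
  have ha := h.asc x y z
  rw [c2 hn, asc_spec x y z, c2 hn, c2 hn, c1 ha]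

theorem CE.congr (h : CE Q f) {x x' y y' z z' : Q} (e1 : f x = f x') (e2 : f y = f y')
    (e3 : f z = f z') : SUF.asc x y z = SUF.asc x' y' z' := by
  obtain ⟨n1, hn1, rfl⟩ := h.cls e1
  obtain ⟨n2, hn2, rfl⟩ := h.cls e2
  obtain ⟨n3, hn3, rfl⟩ := h.cls e3
  rw [h.m1 hn1, h.m2 hn2, h.m3 hn3]

theorem CE.cocycle (h : CE Q f) (x y z w : Q) :
    (SUF.asc y z w * SUF.asc x (y * z) w) * SUF.asc x y z =
      SUF.asc x y (z * w) * SUF.asc (x * y) z w := by
  have a1 := h.asc x y z
  have a2 := h.asc x (y * z) w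
  have a3 := h.asc y z w
  have a4 := h.asc (x * y) z w
  have a5 := h.asc x y (z * w)
  have l1 : ((x * y) * z) * w = (x * (y * (z * w))) *
      ((SUF.asc y z w * SUF.asc x (y * z) w) * SUF.asc x y z) := by
    rw [asc_spec x y z, c1 a1, asc_spec x (y * z) w, asc_spec y z w, c2 a3, c2 a1, c2 a2]
  have l2 : ((x * y) * z) * w = (x * (y * (z * w))) *
      (SUF.asc x y (z * w) * SUF.asc (x * y) z w) := by
    rw [asc_spec (x * y) z w, asc_spec x y (z * w), c2 a4]
  exact lcancel (l1.symm.trans l2)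

end ce

end Pool.Agent.helper48.SUF
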