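import Pool.Agent.helper48.SUF.Loop

/-!
# An SUF IP loop which is a central extension of a group is Moufang
-/

set_option autoImplicit false

namespace Pool.Agent.helper48.SUF

section

variable {Q : Type*} [Loop Q] {G : Type*} [Group G] {f : Q → G}

theorem CE.one (h : CE Q f) : f 1 = 1 := by
  have h1 := h.hom 1 1
  rw [Loop.one_mul'] at h1
  exact (mul_eq_left.1 h1.symm)

theorem CE.iv (h : CE Q f) (x : Q) : f (iv x) = (f x)⁻¹ := by
  unfold SUF.iv
  rw [h.ld, h.one, mul_one]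

/-- The associator as an element of the centre. -/
noncomputable def az (h : CE Q f) (x y z : Q) : {n : Q // Central n} := ⟨asc x y z, h.asc x y z⟩

theorem az_zero (hi : InverseProperty Q) (h : CE Q f) (x y z : Q)
    (e : (x * y) * z = x * (y * z)) : letI := zG hi; az h x y z = 0 :=
  Subtype.ext (asc_uni (n := (1 : Q)) (e.trans (Loop.mul_one' _).symm))

theorem az_coc (hi : InverseProperty Q) (h : CE Q f) (x y z w : Q) : letI := zG hi
    az h y z w - az h (x * y) z w + az h x (y * z) w - az h x y (z * w) + az h x y z = 0 := by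
  let _ := zG hi
  have h1 : (az h y z w + az h x (y * z) w) + az h x y z =
      az h x y (z * w) + az h (x * y) z w := Subtype.ext (h.cocycle x y z w)
  have h2 : az h y z w - az h (x * y) z w + az h x (y * z) w - az h x y (z * w) + az h x y z =
      ((az h y z w + az h x (y * z) w) + az h x y z) -
        (az h x y (z * w) + az h (x * y) z w) := by abel
  show az h y z w - az h (x * y) z w + az h x (y * z) w - az h x y (z * w) + az h x y z = 0
  rw [h2, h1, sub_self]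

theorem az_right (hi : InverseProperty Q) (hq : SemiUniversallyFlexible Q) (h : CE Q f)
    (x c y : Q) : letI := zG hi; az h x (c * y) (c * x) + az h c y (c * x) = 0 := by
  let _ := zG hi
  have a1 := h.asc x (c * y) (c * x)
  have a2 := h.asc c y (c * x)
  have e := right_law hq hi x c y
  rw [asc_spec x (c * y) (c * x), asc_spec c y (c * x), c2 a2] at e
  have e3 : (x * (c * (y * (c * x)))) * (asc x (c * y) (c * x) * asc c y (c * x)) =
      (x * (c * (y * (c * x)))) * 1 := by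
    rw [c2 a2, Loop.mul_one', ← c1 a2]
    exact e.symm
  exact Subtype.ext (lcancel e3)

theorem exists_A (hi : InverseProperty Q) (hq : SemiUniversallyFlexible Q) (h : CE Q f)
    (hs : Function.Surjective f) : letI := zG hi
    ∃ A : G → G → G → G → {n : Q // Central n}, Asc A ∧
      ∀ g0 g1 g2 g3 x y z, f x = g0⁻¹ * g1 → f y = g1⁻¹ * g2 → f z = g2⁻¹ * g3 →
        A g0 g1 g2 g3 = az h x y z := by
  let _ := zG hi
  obtain ⟨s, hs⟩ := hs.hasRightInverse
  have key : ∀ g0 g1 g2 g3 x y z, f x = g0⁻¹ * g1 → f y = g1⁻¹ * g2 → f z = g2⁻¹ * g3 →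
      az h (s (g0⁻¹ * g1)) (s (g1⁻¹ * g2)) (s (g2⁻¹ * g3)) = az h x y z := by
    intro g0 g1 g2 g3 x y z h1 h2 h3
    exact Subtype.ext (h.congr ((hs _).trans h1.symm) ((hs _).trans h2.symm)
      ((hs _).trans h3.symm))
  obtain ⟨A, hA⟩ : ∃ A : G → G → G → G → {n : Q // Central n},
      ∀ g0 g1 g2 g3 x y z, f x = g0⁻¹ * g1 → f y = g1⁻¹ * g2 → f z = g2⁻¹ * g3 →
      A g0 g1 g2 g3 = az h x y z :=
    ⟨fun g0 g1 g2 g3 => az h (s (g0⁻¹ * g1)) (s (g1⁻¹ * g2)) (s (g2⁻¹ * g3)), key⟩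
  refine ⟨A, ?_, hA⟩
  have D1 : ∀ a c d, A a a c d = 0 := by
    intro a c d
    rw [hA a a c d 1 (s (a⁻¹ * c)) (s (c⁻¹ * d)) (by rw [h.one, inv_mul_cancel]) (hs _) (hs _)]
    exact az_zero hi h _ _ _ (by rw [Loop.one_mul', Loop.one_mul'])
  have D2 : ∀ a b d, A a b b d = 0 := by
    intro a b d
    rw [hA a b b d (s (a⁻¹ * b)) 1 (s (b⁻¹ * d)) (hs _) (by rw [h.one, inv_mul_cancel]) (hs _)]
    exact az_zero hi h _ _ _ (by rw [Loop.one_mul', Loop.mul_one'])
  have D3 : ∀ a b c, A a b c c = 0 := by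
    intro a b c
    rw [hA a b c c (s (a⁻¹ * b)) (s (b⁻¹ * c)) 1 (hs _) (hs _) (by rw [h.one, inv_mul_cancel])]
    exact az_zero hi h _ _ _ (by rw [Loop.mul_one', Loop.mul_one'])
  have D4 : ∀ a b d, A a b a d = 0 := by
    intro a b d
    rw [hA a b a d (s (a⁻¹ * b)) (iv (s (a⁻¹ * b))) (s (a⁻¹ * d)) (hs _)
      (by rw [h.iv, hs, mul_inv_rev, inv_inv]) (hs _)]
    exact az_zero hi h _ _ _ (by rw [mul_iv, Loop.one_mul', mul_iv_mul hi])
  have D5 : ∀ a b c, A a b c b = 0 := by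
    intro a b c
    rw [hA a b c b (s (a⁻¹ * b)) (s (b⁻¹ * c)) (iv (s (b⁻¹ * c))) (hs _) (hs _)
      (by rw [h.iv, hs, mul_inv_rev, inv_inv])]
    exact az_zero hi h _ _ _ (by rw [mul_iv_cancel hi, mul_iv, Loop.mul_one'])
  have coc : ∀ a b c d e, A b c d e - A a c d e + A a b d e - A a b c e + A a b c d = 0 := by
    intro a b c d e
    rw [hA b c d e (s (b⁻¹ * c)) (s (c⁻¹ * d)) (s (d⁻¹ * e)) (hs _) (hs _) (hs _),
      hA a c d e (s (a⁻¹ * b) * s (b⁻¹ * c)) (s (c⁻¹ * d)) (s (d⁻¹ * e))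
        (by rw [h.hom, hs, hs]; group) (hs _) (hs _),
      hA a b d e (s (a⁻¹ * b)) (s (b⁻¹ * c) * s (c⁻¹ * d)) (s (d⁻¹ * e)) (hs _)
        (by rw [h.hom, hs, hs]; group) (hs _),
      hA a b c e (s (a⁻¹ * b)) (s (b⁻¹ * c)) (s (c⁻¹ * d) * s (d⁻¹ * e)) (hs _) (hs _)
        (by rw [h.hom, hs, hs]; group),
      hA a b c d (s (a⁻¹ * b)) (s (b⁻¹ * c)) (s (c⁻¹ * d)) (hs _) (hs _) (hs _)]
    exact az_coc hi h _ _ _ _
  have s01 : ∀ a b c d, A b a c d = -A a b c d := by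
    intro a b c d
    have e := coc a b a c d
    rw [D1, D4, D4, sub_zero, sub_zero, add_zero] at e
    exact eq_neg_of_add_eq_zero_left e
  have s12 : ∀ a b c d, A a c b d = -A a b c d := by
    intro a b c d
    have e := coc a b c b d
    rw [D4, D2, D5, zero_sub, add_zero, add_zero] at e
    have e2 : -(A a c b d + A a b c d) = 0 := by rw [← e]; abel
    exact eq_neg_of_add_eq_zero_left (neg_eq_zero.1 e2)
  have s23 : ∀ a b c d, A a b d c = -A a b c d := by
    intro a b c d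
    have e := coc a b c d c
    rw [D5, D5, D3, sub_zero, sub_zero, zero_add] at e
    exact eq_neg_of_add_eq_zero_left e
  refine ⟨?_, s01, s12, s23, coc, ?_, ?_⟩
  · intro u a b c d
    rw [hA a b c d (s (a⁻¹ * b)) (s (b⁻¹ * c)) (s (c⁻¹ * d)) (hs _) (hs _) (hs _)]
    exact hA _ _ _ _ _ _ _ (by rw [hs]; group) (by rw [hs]; group) (by rw [hs]; group)
  · intro x v
    rw [hA 1 x v (v * x) (s x) (s (x⁻¹ * v)) (s x) (by rw [hs]; group) (hs _)
      (by rw [hs]; group)]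
    exact az_zero hi h _ _ _ (flex_of hq _ _).symm
  · intro a b c d
    have e := az_right hi hq h (s (a⁻¹ * b)) (s (c⁻¹ * d * b⁻¹ * a))
      (s ((c⁻¹ * d * b⁻¹ * a)⁻¹ * b⁻¹ * c))
    have e' : az h (s (a⁻¹ * b)) (s (c⁻¹ * d * b⁻¹ * a) * s ((c⁻¹ * d * b⁻¹ * a)⁻¹ * b⁻¹ * c))
        (s (c⁻¹ * d * b⁻¹ * a) * s (a⁻¹ * b)) + az h (s (c⁻¹ * d * b⁻¹ * a))
        (s ((c⁻¹ * d * b⁻¹ * a)⁻¹ * b⁻¹ * c)) (s (c⁻¹ * d * b⁻¹ * a) * s (a⁻¹ * b)) = 0 := e
    rw [← hA a b c d _ _ _ (hs _) (by rw [h.hom, hs, hs]; group) (by rw [h.hom, hs, hs]; group),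
      ← hA b (b * c⁻¹ * d * b⁻¹ * a) c d _ _ _ (by rw [hs]; group) (by rw [hs]; group)
        (by rw [h.hom, hs, hs]; group), s01 (b * c⁻¹ * d * b⁻¹ * a) b c d] at e'
    have e2 := sub_eq_zero.1 ((sub_eq_add_neg _ _).trans e')
    exact e2.symm

theorem moufang_of (hi : InverseProperty Q) (hq : SemiUniversallyFlexible Q) (h : CE Q f)
    (hs : Function.Surjective f) : Moufang Q := by
  let _ := zG hi
  obtain ⟨A, hA, hA2⟩ := exists_A hi hq h hs
  intro x y z
  have k1 : A 1 (f x) (f x * f y) (f x * f y * f z * f x) = az h x y (z * x) :=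
    hA2 _ _ _ _ _ _ _ (by group) (by group) (by rw [h.hom]; group)
  have k2 : A (f x) (f x * f y) (f x * f y * f z) (f x * f y * f z * f x) = az h y z x :=
    hA2 _ _ _ _ _ _ _ (by group) (by group) (by group)
  have k3 := hA.coc 1 (f x) (f x * f y) (f x * f y * f z) (f x * f y * f z * f x)
  have k4 := T_move hA (f x * f y) (f x * f y * f z) (f x)
  have k5 := p_0231 hA 1 (f x) (f x * f y) (f x * f y * f z)
  have k6 := hA.flex (f x) (f x * f y * f z)
  rw [k6, ← k4, k5, k1, k2] at k3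
  have k7 : az h y z x - az h x y (z * x) = 0 := by rw [← k3]; abel
  have k8 := congrArg Subtype.val (sub_eq_zero.1 k7)
  have k9 : asc y z x = asc x y (z * x) := k8
  have a1 := h.asc y z x
  rw [← flex_of hq x (y * z), asc_spec y z x, c2 a1, k9, ← asc_spec x y (z * x)]

end

end Pool.Agent.helper48.SUF
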