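import Pool.Agent.helper48.SUF.Main

/-!
# The quotient by the centre
-/

set_option autoImplicit false

namespace Pool.Agent.helper48.SUF

section

variable {Q : Type*} [Loop Q]

/-- Congruence modulo the centre. -/
def Zr (x y : Q) : Prop := ∃ n, Central n ∧ y = x * n

theorem Zr.refl (x : Q) : Zr x x := ⟨1, central_one, (Loop.mul_one' x).symm⟩

theorem Zr.symm (hi : InverseProperty Q) {x y : Q} (h : Zr x y) : Zr y x := by
  obtain ⟨n, hn, rfl⟩ := h
  exact ⟨iv n, hn.iv hi, (mul_iv_cancel hi n x).symm⟩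

theorem Zr.trans {x y z : Q} (h : Zr x y) (h' : Zr y z) : Zr x z := by
  obtain ⟨n, hn, rfl⟩ := h
  obtain ⟨m, hm, rfl⟩ := h'
  exact ⟨n * m, hn.mul hm, hn.2.2.1 x m⟩

/-- The setoid of congruence modulo the centre. -/
def Zs (hi : InverseProperty Q) : Setoid Q where
  r := Zr
  iseqv := ⟨Zr.refl, Zr.symm hi, Zr.trans⟩

theorem Zr.mul {x x' y y' : Q} (h : Zr x x') (h' : Zr y y') : Zr (x * y) (x' * y') := by
  obtain ⟨n, hn, rfl⟩ := h
  obtain ⟨m, hm, rfl⟩ := h'
  refine ⟨m * n, hm.mul hn, ?_⟩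
  rw [c1 hn, c2 hm, c2 hn]

theorem Zr.iv (hi : InverseProperty Q) {x x' : Q} (h : Zr x x') : Zr (iv x) (iv x') := by
  obtain ⟨n, hn, rfl⟩ := h
  refine ⟨SUF.iv n, hn.iv hi, ?_⟩
  have h1 : (x * n) * (SUF.iv x * SUF.iv n) = 1 := by
    rw [c1 hn, mul_iv_mul hi, iv_mul hi]
  exact (ld_unique h1).symm

/-- The quotient group, if all associators are central. -/
@[reducible] noncomputable def zQ (hi : InverseProperty Q)
    (hc : ∀ x y z n : Q, (x * y) * z = (x * (y * z)) * n → Central n) :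
    Group (Quotient (Zs hi)) :=
  letI m1 : Mul (Quotient (Zs hi)) :=
    ⟨Quotient.map₂ (fun x y => x * y) fun _ _ h _ _ h' => Zr.mul h h'⟩
  letI m2 : One (Quotient (Zs hi)) := ⟨Quotient.mk (Zs hi) 1⟩
  letI m3 : Inv (Quotient (Zs hi)) := ⟨Quotient.map iv fun _ _ h => Zr.iv hi h⟩
  Group.ofLeftAxioms (G := Quotient (Zs hi))
    (by
      intro a b c
      refine Quotient.inductionOn₃ a b c fun x y z => ?_
      exact (Quotient.sound (s := Zs hi)
        ⟨asc x y z, hc x y z _ (asc_spec x y z), asc_spec x y z⟩).symm)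
    (by
      intro a
      refine Quotient.inductionOn a fun x => ?_
      exact congrArg (Quotient.mk (Zs hi)) (Loop.one_mul' x))
    (by
      intro a
      refine Quotient.inductionOn a fun x => ?_
      exact congrArg (Quotient.mk (Zs hi)) (iv_mul hi x))

theorem moufang_of_central (hi : InverseProperty Q) (hq : SemiUniversallyFlexible Q)
    (hc : ∀ x y z n : Q, (x * y) * z = (x * (y * z)) * n → Central n) : Moufang Q := by
  let _ := zQ hi hc
  have h : CE Q (Quotient.mk (Zs hi)) := by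
    refine ⟨fun x y => rfl, fun n hn => ?_⟩
    have h1 : Zr n 1 := Quotient.exact hn
    obtain ⟨m, hm, e⟩ := Zr.symm hi h1
    rw [e, Loop.one_mul']
    exact hm
  exact moufang_of hi hq h (Quotient.mk_surjective)

end

end Pool.Agent.helper48.SUF
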